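import Pool.Agent.Helper77_EGF.DRFA

/-!
Row DRF of table egf: dependent random choice with dense families.
-/

set_option autoImplicit false

namespace Pool.Agent.EGF.H77

open Finset

section

variable {X O : Type} [DecidableEq X] [DecidableEq O]

/-- the common neighbours -/
def Xv {τ : ℕ} (X0 : Finset X) (N : X → Finset O) (v : Fin τ → O) : Finset X :=
  X0.filter fun x => ∀ l, v l ∈ N x

/-- double counting -/
theorem dc {τ : ℕ} (X0 : Finset X) (Om : Finset O) (N : X → Finset O)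
    (hN : ∀ x ∈ X0, N x ⊆ Om) (g : (Fin τ → O) → ℝ) :
    ∑ v ∈ Fintype.piFinset (fun _ : Fin τ => Om), ((Xv X0 N v).card : ℝ) * g v =
      ∑ x ∈ X0, ∑ v ∈ Fintype.piFinset (fun _ : Fin τ => N x), g v := by
  have h1 : ∀ v : Fin τ → O, ((Xv X0 N v).card : ℝ) * g v =
      ∑ x ∈ X0, if (∀ l, v l ∈ N x) then g v else 0 := by
    intro v
    rw [← Finset.sum_filter, sum_const, nsmul_eq_mul]
    rfl
  simp only [h1]
  rw [sum_comm]
  refine sum_congr rfl fun x hx => ?_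
  rw [← Finset.sum_filter]
  congr 1
  ext v
  simp only [mem_filter, Fintype.mem_piFinset]
  constructor
  · exact fun h => h.2
  · exact fun h => ⟨fun l => hN x hx (h l), h⟩

theorem card_pi {τ : ℕ} (M : Finset O) :
    ((Fintype.piFinset (fun _ : Fin τ => M)).card : ℝ) = (M.card : ℝ) ^ τ := by
  rw [Fintype.card_piFinset, prod_const, card_univ, Fintype.card_fin]
  push_cast
  rfl

theorem sumS {τ : ℕ} (X0 : Finset X) (Om : Finset O) (N : X → Finset O)
    (hN : ∀ x ∈ X0, N x ⊆ Om) :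
    ∑ v ∈ Fintype.piFinset (fun _ : Fin τ => Om), ((Xv X0 N v).card : ℝ) =
      ∑ x ∈ X0, ((N x).card : ℝ) ^ τ := by
  have h := dc (τ := τ) X0 Om N hN (fun _ => 1)
  simp only [mul_one, sum_const, nsmul_eq_mul] at h
  rw [h]
  exact sum_congr rfl fun x _ => card_pi (N x)

open Classical in
theorem sumA {τ : ℕ} {I : Type} (X0 : Finset X) (Om : Finset O) (N : X → Finset O)
    (FI : Finset I) (F : I → Finset O) (d : ℝ) (hd : 0 < d)
    (hN : ∀ x ∈ X0, N x ⊆ Om)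
    (hF : ∀ x ∈ X0, ∀ i ∈ FI, d * Om.card ≤ ((N x ∩ F i).card : ℝ))
    (hFI : FI.card * Real.exp (-(d * τ / 4)) ≤ 1 / 8) :
    ∑ v ∈ Fintype.piFinset (fun _ : Fin τ => Om), ((Xv X0 N v).card : ℝ) *
      (if ∃ i ∈ FI, ((nn (F i) v : ℕ) : ℝ) < d * τ / 4 then (1 : ℝ) else 0) ≤
      1 / 8 * ∑ x ∈ X0, ((N x).card : ℝ) ^ τ := by
  rw [dc X0 Om N hN, mul_sum]
  refine sum_le_sum fun x hx => ?_
  calc ∑ v ∈ Fintype.piFinset (fun _ : Fin τ => N x),
        (if ∃ i ∈ FI, ((nn (F i) v : ℕ) : ℝ) < d * τ / 4 then (1 : ℝ) else 0)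
      ≤ ∑ v ∈ Fintype.piFinset (fun _ : Fin τ => N x), ∑ i ∈ FI,
        (if ((nn (F i) v : ℕ) : ℝ) < d * τ / 4 then (1 : ℝ) else 0) := by
        refine sum_le_sum fun v _ => ?_
        split_ifs with h
        · obtain ⟨i, hi, h2⟩ := h
          calc (1 : ℝ) = (if ((nn (F i) v : ℕ) : ℝ) < d * τ / 4 then (1 : ℝ) else 0) := by
                rw [if_pos h2]
            _ ≤ _ := single_le_sum (f := fun i =>
                (if ((nn (F i) v : ℕ) : ℝ) < d * τ / 4 then (1 : ℝ) else 0))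
                (fun j _ => by split_ifs <;> norm_num) hi
        · exact sum_nonneg fun j _ => by split_ifs <;> norm_num
    _ = ∑ i ∈ FI, (((Fintype.piFinset (fun _ : Fin τ => N x)).filter
          fun v => ((nn (F i) v : ℕ) : ℝ) < d * τ / 4).card : ℝ) := by
        rw [sum_comm]
        refine sum_congr rfl fun i _ => ?_
        rw [← sum_filter, sum_const, nsmul_eq_mul, mul_one]
    _ ≤ ∑ _i ∈ FI, ((N x).card : ℝ) ^ τ * Real.exp (-(d * τ / 4)) :=
        sum_le_sum fun i hi => by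
          have h := c1 (τ := τ) Om (N x) (F i) d hd (hN x hx) (hF x hx i hi)
          refine le_trans (le_of_eq ?_) h
          congr
    _ = (FI.card * Real.exp (-(d * τ / 4))) * ((N x).card : ℝ) ^ τ := by
        rw [sum_const, nsmul_eq_mul]
        ring
    _ ≤ 1 / 8 * ((N x).card : ℝ) ^ τ := mul_le_mul_of_nonneg_right hFI (by positivity)

theorem sumB {τ : ℕ} {J : Type} [DecidableEq J] (X0 : Finset X) (Om : Finset O)
    (N : X → Finset O) (GJ : Finset J) (G : J → Finset O) (d ξ : ℝ) (hd : 0 < d)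
    (hN : ∀ x ∈ X0, N x ⊆ Om)
    (hG : ∀ x ∈ X0, ((GJ.filter fun j => ((N x ∩ G j).card : ℝ) < d * Om.card).card : ℝ) ≤
      ξ * GJ.card) :
    ∑ v ∈ Fintype.piFinset (fun _ : Fin τ => Om), ((Xv X0 N v).card : ℝ) *
      ((GJ.filter fun j => ((nn (G j) v : ℕ) : ℝ) < d * τ / 4).card : ℝ) ≤
      (ξ + Real.exp (-(d * τ / 4))) * GJ.card * ∑ x ∈ X0, ((N x).card : ℝ) ^ τ := by
  rw [dc X0 Om N hN, mul_sum]
  refine sum_le_sum fun x hx => ?_
  calc ∑ v ∈ Fintype.piFinset (fun _ : Fin τ => N x),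
        ((GJ.filter fun j => ((nn (G j) v : ℕ) : ℝ) < d * τ / 4).card : ℝ)
      = ∑ j ∈ GJ, (((Fintype.piFinset (fun _ : Fin τ => N x)).filter
          fun v => ((nn (G j) v : ℕ) : ℝ) < d * τ / 4).card : ℝ) := by
        simp only [card_eq_sum_ones, sum_filter]
        push_cast
        rw [sum_comm]
    _ ≤ ∑ j ∈ GJ, ((if ((N x ∩ G j).card : ℝ) < d * Om.card then ((N x).card : ℝ) ^ τ else 0) +
          ((N x).card : ℝ) ^ τ * Real.exp (-(d * τ / 4))) := by
        refine sum_le_sum fun j _ => ?_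
        split_ifs with h
        · have h1 : (((Fintype.piFinset (fun _ : Fin τ => N x)).filter
              fun v => ((nn (G j) v : ℕ) : ℝ) < d * τ / 4).card : ℝ) ≤ ((N x).card : ℝ) ^ τ := by
            rw [← card_pi (τ := τ) (N x)]
            exact_mod_cast card_le_card (filter_subset _ _)
          have h2 : 0 ≤ ((N x).card : ℝ) ^ τ * Real.exp (-(d * τ / 4)) := by positivity
          linarith
        · push Not at h
          rw [zero_add]
          exact c1 (τ := τ) Om (N x) (G j) d hd (hN x hx) h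
    _ = ((GJ.filter fun j => ((N x ∩ G j).card : ℝ) < d * Om.card).card : ℝ) *
          ((N x).card : ℝ) ^ τ + GJ.card * (((N x).card : ℝ) ^ τ * Real.exp (-(d * τ / 4))) := by
        rw [sum_add_distrib, ← sum_filter, sum_const, sum_const, nsmul_eq_mul, nsmul_eq_mul]
    _ ≤ ξ * GJ.card * ((N x).card : ℝ) ^ τ +
          GJ.card * (((N x).card : ℝ) ^ τ * Real.exp (-(d * τ / 4))) := by
        have := mul_le_mul_of_nonneg_right (hG x hx) (by positivity : 0 ≤ ((N x).card : ℝ) ^ τ)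
        linarith
    _ = _ := by ring

/-- the bad triples -/
def Bd {τ : ℕ} {I : Type} [DecidableEq I] (X0 : Finset X) (Om : Finset O) (N : X → Finset O)
    (FI : Finset I) (F : I → Finset O) (d η : ℝ) (v : Fin τ → O) : Prop :=
  ∃ x ∈ X0, ∃ x' ∈ X0, ∃ i ∈ FI, (∀ l, v l ∈ N x ∩ N x') ∧ ¬ ((nn (F i) v : ℕ) : ℝ) < d * τ / 4 ∧
    ((N x ∩ N x' ∩ F i).card : ℝ) < η * Om.card

open Classical in
theorem sumC {τ : ℕ} {I : Type} [DecidableEq I] (X0 : Finset X) (Om : Finset O)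
    (N : X → Finset O) (FI : Finset I) (F : I → Finset O) (d η : ℝ) (hη : 0 < η) (hη1 : η ≤ 1)
    (hN : ∀ x ∈ X0, N x ⊆ Om) :
    ∑ v ∈ Fintype.piFinset (fun _ : Fin τ => Om),
      (if Bd X0 Om N FI F d η v then (1 : ℝ) else 0) ≤
      (X0.card : ℝ) ^ 2 * FI.card * (2 ^ τ * η ^ (d * τ / 4) * (Om.card : ℝ) ^ τ) := by
  calc ∑ v ∈ Fintype.piFinset (fun _ : Fin τ => Om),
        (if Bd X0 Om N FI F d η v then (1 : ℝ) else 0)
      ≤ ∑ v ∈ Fintype.piFinset (fun _ : Fin τ => Om), ∑ x ∈ X0, ∑ x' ∈ X0, ∑ i ∈ FI,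
        (if (∀ l, v l ∈ N x ∩ N x') ∧ ¬ ((nn (F i) v : ℕ) : ℝ) < d * τ / 4 ∧
          ((N x ∩ N x' ∩ F i).card : ℝ) < η * Om.card then (1 : ℝ) else 0) := by
        refine sum_le_sum fun v _ => ?_
        have hnn : ∀ x x' i, (0 : ℝ) ≤ (if (∀ l, v l ∈ N x ∩ N x') ∧
          ¬ ((nn (F i) v : ℕ) : ℝ) < d * τ / 4 ∧
          ((N x ∩ N x' ∩ F i).card : ℝ) < η * Om.card then (1 : ℝ) else 0) := by
          intro x x' i
          split_ifs <;> norm_num
        by_cases h : Bd X0 Om N FI F d η v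
        · rw [if_pos h]
          obtain ⟨x, hx, x', hx', i, hi, hc⟩ := h
          calc (1 : ℝ) = (if (∀ l, v l ∈ N x ∩ N x') ∧
                ¬ ((nn (F i) v : ℕ) : ℝ) < d * τ / 4 ∧
                ((N x ∩ N x' ∩ F i).card : ℝ) < η * Om.card then (1 : ℝ) else 0) := by
                rw [if_pos hc]
            _ ≤ ∑ i ∈ FI, (if (∀ l, v l ∈ N x ∩ N x') ∧
                ¬ ((nn (F i) v : ℕ) : ℝ) < d * τ / 4 ∧
                ((N x ∩ N x' ∩ F i).card : ℝ) < η * Om.card then (1 : ℝ) else 0) :=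
                single_le_sum (f := fun i => (if (∀ l, v l ∈ N x ∩ N x') ∧
                ¬ ((nn (F i) v : ℕ) : ℝ) < d * τ / 4 ∧
                ((N x ∩ N x' ∩ F i).card : ℝ) < η * Om.card then (1 : ℝ) else 0))
                (fun j _ => hnn x x' j) hi
            _ ≤ ∑ x' ∈ X0, ∑ i ∈ FI, (if (∀ l, v l ∈ N x ∩ N x') ∧
                ¬ ((nn (F i) v : ℕ) : ℝ) < d * τ / 4 ∧
                ((N x ∩ N x' ∩ F i).card : ℝ) < η * Om.card then (1 : ℝ) else 0) :=
                single_le_sum (f := fun x' => ∑ i ∈ FI, (if (∀ l, v l ∈ N x ∩ N x') ∧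
                ¬ ((nn (F i) v : ℕ) : ℝ) < d * τ / 4 ∧
                ((N x ∩ N x' ∩ F i).card : ℝ) < η * Om.card then (1 : ℝ) else 0))
                (fun x' _ => sum_nonneg fun j _ => hnn x x' j) hx'
            _ ≤ _ :=
                single_le_sum (f := fun x => ∑ x' ∈ X0, ∑ i ∈ FI,
                (if (∀ l, v l ∈ N x ∩ N x') ∧
                ¬ ((nn (F i) v : ℕ) : ℝ) < d * τ / 4 ∧
                ((N x ∩ N x' ∩ F i).card : ℝ) < η * Om.card then (1 : ℝ) else 0))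
                (fun x _ => sum_nonneg fun x' _ => sum_nonneg fun j _ => hnn x x' j) hx
        · rw [if_neg h]
          exact sum_nonneg fun x _ => sum_nonneg fun x' _ => sum_nonneg fun j _ => hnn x x' j
    _ = ∑ x ∈ X0, ∑ x' ∈ X0, ∑ i ∈ FI, ∑ v ∈ Fintype.piFinset (fun _ : Fin τ => Om),
        (if (∀ l, v l ∈ N x ∩ N x') ∧ ¬ ((nn (F i) v : ℕ) : ℝ) < d * τ / 4 ∧
          ((N x ∩ N x' ∩ F i).card : ℝ) < η * Om.card then (1 : ℝ) else 0) := by
        rw [sum_comm]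
        refine sum_congr rfl fun x _ => ?_
        rw [sum_comm]
        refine sum_congr rfl fun x' _ => ?_
        rw [sum_comm]
    _ ≤ ∑ x ∈ X0, ∑ x' ∈ X0, ∑ i ∈ FI, (2 ^ τ * η ^ (d * τ / 4) * (Om.card : ℝ) ^ τ) := by
        refine sum_le_sum fun x hx => sum_le_sum fun x' hx' => sum_le_sum fun i hi => ?_
        by_cases h : ((N x ∩ N x' ∩ F i).card : ℝ) < η * Om.card
        · have h1 := c2 (τ := τ) Om (N x ∩ N x') (F i) d η hη hη1
            (inter_subset_left.trans (hN x hx)) h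
          refine le_trans ?_ h1
          rw [← sum_filter, sum_const, nsmul_eq_mul, mul_one]
          have h2 : ((Fintype.piFinset (fun _ : Fin τ => Om)).filter fun v =>
              (∀ l, v l ∈ N x ∩ N x') ∧ ¬ ((nn (F i) v : ℕ) : ℝ) < d * τ / 4 ∧
              ((N x ∩ N x' ∩ F i).card : ℝ) < η * Om.card) ⊆
              (Fintype.piFinset (fun _ : Fin τ => N x ∩ N x')).filter
                fun v => ¬ ((nn (F i) v : ℕ) : ℝ) < d * τ / 4 := by
            intro v hv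
            rw [mem_filter] at hv ⊢
            exact ⟨Fintype.mem_piFinset.2 hv.2.1, hv.2.2.1⟩
          exact_mod_cast card_le_card h2
        · refine le_trans (le_of_eq ?_) (by positivity :
            (0 : ℝ) ≤ 2 ^ τ * η ^ (d * τ / 4) * (Om.card : ℝ) ^ τ)
          apply sum_eq_zero
          intro v _
          rw [if_neg]
          exact fun hc => h hc.2.2
    _ = _ := by
        simp only [sum_const, nsmul_eq_mul]
        ring

end

/-- averaging -/
theorem avg {α : Type} (Ω : Finset α) (hΩ : Ω.Nonempty) (S A U B : α → ℝ) (W m x0 : ℝ)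
    (hS : ∑ v ∈ Ω, S v = W) (hA : ∑ v ∈ Ω, S v * A v ≤ 1 / 8 * W)
    (hU : ∑ v ∈ Ω, S v * U v ≤ 1 / 4 * W) (hB : x0 * ∑ v ∈ Ω, B v ≤ 1 / 8 * W)
    (hm : (Ω.card : ℝ) * m ≤ 1 / 2 * W) :
    ∃ v ∈ Ω, m ≤ S v - S v * A v - S v * U v - x0 * B v := by
  apply Finset.exists_le_of_sum_le hΩ
  rw [sum_sub_distrib, sum_sub_distrib, sum_sub_distrib, ← mul_sum, sum_const, nsmul_eq_mul, hS]
  linarith

/-- division of the second bound -/
theorem sum_div {α : Type} (Ω : Finset α) (S T : α → ℝ) (W z g : ℝ) (hz : 0 < z) (hg : 0 ≤ g)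
    (hW : 0 ≤ W) (h : ∑ v ∈ Ω, S v * T v ≤ z * g * W) :
    ∑ v ∈ Ω, S v * (T v / (4 * z * g)) ≤ 1 / 4 * W := by
  have h1 : ∑ v ∈ Ω, S v * (T v / (4 * z * g)) = (∑ v ∈ Ω, S v * T v) * (4 * z * g)⁻¹ := by
    rw [sum_mul]
    refine sum_congr rfl fun v _ => ?_
    rw [div_eq_mul_inv]
    ring
  rw [h1]
  rcases hg.eq_or_lt with h0 | h0
  · rw [← h0, mul_zero, inv_zero, mul_zero]
    positivity
  · rw [mul_inv_le_iff₀ (by positivity)]
    linarith

/-- from the value to the conclusions -/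
theorem fromval (m S A U B x0 T z g : ℝ) (hm : 0 < m) (hS : 0 ≤ S) (hSx : S ≤ x0) (hA : A = 0 ∨ A = 1)
    (hB : B = 0 ∨ B = 1) (hT : 0 ≤ T) (hz : 0 < z) (hg : 0 ≤ g) (hgT : g = 0 → T = 0)
    (hUT : U = T / (4 * z * g)) (hv : m ≤ S - S * A - S * U - x0 * B) :
    A = 0 ∧ B = 0 ∧ T ≤ 4 * z * g ∧ m ≤ S := by
  have hU0 : 0 ≤ U := by
    rw [hUT]
    positivity
  have hSU := mul_nonneg hS hU0
  have hB0 : B = 0 := by
    rcases hB with hB | hB
    · exact hB
    · exfalso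
      rw [hB, mul_one] at hv
      have : 0 ≤ S * A := by
        rcases hA with hA | hA <;> rw [hA] <;> linarith
      linarith
  rw [hB0, mul_zero, sub_zero] at hv
  have hA0 : A = 0 := by
    rcases hA with hA | hA
    · exact hA
    · exfalso
      rw [hA, mul_one] at hv
      linarith
  rw [hA0, mul_zero, sub_zero] at hv
  refine ⟨hA0, hB0, ?_, by linarith⟩
  rcases hg.eq_or_lt with h0 | h0
  · rw [hgT h0.symm, ← h0]
    simp
  · have h1 : U ≤ 1 := by
      by_contra hc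
      push Not at hc
      have hS1 : 0 < S := by linarith
      have h2 := mul_lt_mul_of_pos_left hc hS1
      linarith
    rw [hUT, div_le_one (by positivity)] at h1
    exact h1

open Classical in
/-- the choice of `v` -/
theorem choice {X O I J : Type} [DecidableEq X] [DecidableEq O] [DecidableEq I]
    [DecidableEq J] (X0 : Finset X) (Om : Finset O) (N : X → Finset O) (FI : Finset I)
    (F : I → Finset O) (GJ : Finset J) (G : J → Finset O) (r d ξ η : ℝ) (τ : ℕ)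
    (hX0 : X0.Nonempty) (hOm : Om.Nonempty) (hr : 0 < r) (hd : 0 < d) (hξ : 0 ≤ ξ)
    (hη : 0 < η) (hη1 : η ≤ 1) (hNO : ∀ x ∈ X0, N x ⊆ Om)
    (hNr : ∀ x ∈ X0, r * Om.card ≤ ((N x).card : ℝ))
    (hF : ∀ x ∈ X0, ∀ i ∈ FI, d * Om.card ≤ ((N x ∩ F i).card : ℝ))
    (hG : ∀ x ∈ X0, ((GJ.filter fun j => ((N x ∩ G j).card : ℝ) < d * Om.card).card : ℝ) ≤
      ξ * GJ.card)
    (hFI : FI.card * Real.exp (-(d * τ / 4)) ≤ 1 / 8)
    (hbig : 8 * (X0.card : ℝ) ^ 3 * (FI.card + GJ.card) * 2 ^ τ * η ^ (d * τ / 4) ≤ r ^ τ) :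
    ∃ v : Fin τ → O, (¬ ∃ i ∈ FI, ((nn (F i) v : ℕ) : ℝ) < d * τ / 4) ∧
      ¬ Bd X0 Om N (FI.disjSum GJ) (Sum.elim F G) d η v ∧
      ((GJ.filter fun j => ((nn (G j) v : ℕ) : ℝ) < d * τ / 4).card : ℝ) ≤
        4 * (ξ + Real.exp (-(d * τ / 4))) * GJ.card ∧
      1 / 2 * r ^ τ * X0.card ≤ ((Xv X0 N v).card : ℝ) := by
  have hζ : 0 < ξ + Real.exp (-(d * τ / 4)) := by
    have := Real.exp_pos (-(d * τ / 4))
    linarith
  have hX0c : (1 : ℝ) ≤ X0.card := by exact_mod_cast hX0.card_pos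
  have hOmc : (0 : ℝ) < Om.card := by exact_mod_cast hOm.card_pos
  have hΩ : (Fintype.piFinset (fun _ : Fin τ => Om)).Nonempty :=
    Fintype.piFinset_nonempty.2 fun _ => hOm
  have hW : (X0.card : ℝ) * (r ^ τ * (Om.card : ℝ) ^ τ) ≤ ∑ x ∈ X0, ((N x).card : ℝ) ^ τ := by
    calc (X0.card : ℝ) * (r ^ τ * (Om.card : ℝ) ^ τ) = ∑ _x ∈ X0, (r * (Om.card : ℝ)) ^ τ := by
          rw [sum_const, nsmul_eq_mul, mul_pow]
      _ ≤ _ := sum_le_sum fun x hx => pow_le_pow_left₀ (by positivity) (hNr x hx) τ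
  have hS := sumS (τ := τ) X0 Om N hNO
  have hA := sumA (τ := τ) X0 Om N FI F d hd hNO hF hFI
  have hB := sumB (τ := τ) X0 Om N GJ G d ξ hd hNO hG
  have hC := sumC (τ := τ) X0 Om N (FI.disjSum GJ) (Sum.elim F G) d η hη hη1 hNO
  have hcard : ((FI.disjSum GJ).card : ℝ) = FI.card + GJ.card := by
    rw [card_disjSum]
    push_cast
    rfl
  rw [hcard] at hC
  have hrO : 0 < r ^ τ * (Om.card : ℝ) ^ τ := by positivity
  have hW0 : 0 < ∑ x ∈ X0, ((N x).card : ℝ) ^ τ := lt_of_lt_of_le (by positivity) hW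
  have hB2 := sum_div _ _ _ _ _ _ hζ (by positivity : (0 : ℝ) ≤ (GJ.card : ℝ)) hW0.le hB
  have hC2 : (X0.card : ℝ) * ∑ v ∈ Fintype.piFinset (fun _ : Fin τ => Om),
      (if Bd X0 Om N (FI.disjSum GJ) (Sum.elim F G) d η v then (1 : ℝ) else 0) ≤
        1 / 8 * ∑ x ∈ X0, ((N x).card : ℝ) ^ τ := by
    refine (mul_le_mul_of_nonneg_left hC (by positivity)).trans ?_
    have h2 := mul_le_mul_of_nonneg_right hbig (by positivity : 0 ≤ (Om.card : ℝ) ^ τ)
    have h1 : r ^ τ * (Om.card : ℝ) ^ τ ≤ (X0.card : ℝ) * (r ^ τ * (Om.card : ℝ) ^ τ) :=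
      le_mul_of_one_le_left hrO.le hX0c
    have h3 : (X0.card : ℝ) * ((X0.card : ℝ) ^ 2 * (FI.card + GJ.card) *
        (2 ^ τ * η ^ (d * τ / 4) * (Om.card : ℝ) ^ τ)) =
        1 / 8 * (8 * (X0.card : ℝ) ^ 3 * (FI.card + GJ.card) * 2 ^ τ * η ^ (d * τ / 4) *
          (Om.card : ℝ) ^ τ) := by ring
    rw [h3]
    linarith
  have hm : ((Fintype.piFinset (fun _ : Fin τ => Om)).card : ℝ) * (1 / 2 * r ^ τ * X0.card) ≤
      1 / 2 * ∑ x ∈ X0, ((N x).card : ℝ) ^ τ := by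
    rw [card_pi]
    have h2 : (Om.card : ℝ) ^ τ * (1 / 2 * r ^ τ * X0.card) =
        1 / 2 * ((X0.card : ℝ) * (r ^ τ * (Om.card : ℝ) ^ τ)) := by ring
    rw [h2]
    linarith
  obtain ⟨v, -, hv⟩ := avg _ hΩ _ _ _ _ _ _ _ hS hA hB2 hC2 hm
  have hSle : ((Xv X0 N v).card : ℝ) ≤ X0.card := by
    exact_mod_cast card_le_card (filter_subset _ _)
  have h := fromval _ _ _ _ _ _ _ _ _ (by positivity) (by positivity) hSle
    (by split_ifs <;> simp) (by split_ifs <;> simp) (by positivity) hζ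
    (by positivity : (0 : ℝ) ≤ (GJ.card : ℝ)) (by
      intro h0
      have h1 : (GJ.filter fun j => ((nn (G j) v : ℕ) : ℝ) < d * τ / 4).card ≤ GJ.card :=
        card_le_card (filter_subset _ _)
      have h2 : GJ.card = 0 := by exact_mod_cast h0
      have h3 : (GJ.filter fun j => ((nn (G j) v : ℕ) : ℝ) < d * τ / 4).card = 0 := by omega
      exact_mod_cast h3) rfl hv
  obtain ⟨h1, h2, h3, h4⟩ := h
  refine ⟨v, ?_, ?_, h3, h4⟩
  · intro hc
    rw [if_pos hc] at h1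
    exact one_ne_zero h1
  · intro hc
    rw [if_pos hc] at h2
    exact one_ne_zero h2

/-- DRF. -/
theorem drf : DrfStmt := by
  intro X O I J _ _ _ _ X0 Om N FI F GJ G r d ξ η τ hX0 hOm hr hd hd1 hξ hη hη1 hNO hNr hF hG
    hFI hbig
  obtain ⟨v, hna, hnb, hU1, hSv⟩ := choice X0 Om N FI F GJ G r d ξ η τ hX0 hOm hr hd hξ hη hη1 hNO
    hNr hF hG hFI hbig
  have hX0c : (1 : ℝ) ≤ X0.card := by exact_mod_cast hX0.card_pos
  have hS1 : 0 < ((Xv X0 N v).card : ℝ) := lt_of_lt_of_le (by positivity) hSv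
  refine ⟨Xv X0 N v, filter_subset _ _,
    GJ.filter fun j => ¬ ((nn (G j) v : ℕ) : ℝ) < d * τ / 4, filter_subset _ _, ?_, hSv, ?_, ?_, ?_⟩
  · rw [← card_pos]
    exact_mod_cast hS1
  · have h1 : GJ \ (GJ.filter fun j => ¬ ((nn (G j) v : ℕ) : ℝ) < d * τ / 4) =
        GJ.filter fun j => ((nn (G j) v : ℕ) : ℝ) < d * τ / 4 := by
      ext j
      simp only [mem_sdiff, mem_filter, not_and, not_not]
      constructor
      · exact fun h => ⟨h.1, h.2 h.1⟩
      · exact fun h => ⟨h.1, fun _ => h.2⟩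
    rw [h1]
    exact hU1
  · intro x hx x' hx' i hi
    by_contra hc
    push Not at hc
    apply hnb
    refine ⟨x, (mem_filter.1 hx).1, x', (mem_filter.1 hx').1, Sum.inl i,
      inl_mem_disjSum.2 hi, ?_, ?_, hc⟩
    · intro l
      exact mem_inter.2 ⟨(mem_filter.1 hx).2 l, (mem_filter.1 hx').2 l⟩
    · intro h
      exact hna ⟨i, hi, h⟩
  · intro x hx x' hx' j hj
    by_contra hc
    push Not at hc
    apply hnb
    refine ⟨x, (mem_filter.1 hx).1, x', (mem_filter.1 hx').1, Sum.inr j,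
      inr_mem_disjSum.2 (mem_filter.1 hj).1, ?_, (mem_filter.1 hj).2, hc⟩
    intro l
    exact mem_inter.2 ⟨(mem_filter.1 hx).2 l, (mem_filter.1 hx').2 l⟩

end Pool.Agent.EGF.H77
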