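import Pool.Agent.EGF.StmtsQ

/-!
Row DRF of table egf, part 1: two counting bounds.
-/

set_option autoImplicit false

namespace Pool.Agent.EGF.H77

open Finset

variable {O : Type} [DecidableEq O]

/-- number of hits -/
def nn {τ : ℕ} (F : Finset O) (v : Fin τ → O) : ℕ := (univ.filter fun l => v l ∈ F).card

theorem sumW (τ : ℕ) (M F : Finset O) (a : ℝ) :
    ∑ v ∈ Fintype.piFinset (fun _ : Fin τ => M), a ^ (nn F v) =
      (((M \ F).card : ℝ) + a * ((M ∩ F).card : ℝ)) ^ τ := by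
  have h1 : ∀ v : Fin τ → O, a ^ (nn F v) = ∏ l, if v l ∈ F then a else 1 := by
    intro v
    rw [Finset.prod_ite, Finset.prod_const, Finset.prod_const_one, mul_one]
    rfl
  simp only [h1]
  rw [← Finset.prod_univ_sum (fun _ : Fin τ => M) (fun _ j => if j ∈ F then a else 1),
    Finset.prod_const, card_univ, Fintype.card_fin]
  congr 1
  rw [Finset.sum_ite, sum_const, sum_const, nsmul_eq_mul, nsmul_eq_mul, mul_one,
    Finset.filter_mem_eq_inter, Finset.filter_notMem_eq_sdiff]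
  ring

theorem card_split (M F : Finset O) : ((M \ F).card : ℝ) = M.card - (M ∩ F).card := by
  have h := Finset.card_sdiff_add_card_inter M F
  have h2 : (((M \ F).card + (M ∩ F).card : ℕ) : ℝ) = M.card := by rw [h]
  push_cast at h2
  linarith

/-- few choices undersample a dense set -/
theorem c1 {τ : ℕ} (Om M F : Finset O) (d : ℝ) (hd : 0 < d) (hM : M ⊆ Om)
    (h : d * Om.card ≤ ((M ∩ F).card : ℝ)) :
    (((Fintype.piFinset (fun _ : Fin τ => M)).filter
      fun v => ((nn F v : ℕ) : ℝ) < d * τ / 4).card : ℝ) ≤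
      (M.card : ℝ) ^ τ * Real.exp (-(d * τ / 4)) := by
  set P := (Fintype.piFinset (fun _ : Fin τ => M)).filter
      fun v => ((nn F v : ℕ) : ℝ) < d * τ / 4 with hP
  have hpow : ∀ n : ℕ, Real.exp (-1) ^ n = Real.exp (-(n : ℝ)) := by
    intro n
    rw [← Real.exp_nat_mul]
    ring_nf
  have e1 : (P.card : ℝ) * Real.exp (-(d * τ / 4)) ≤
      (((M \ F).card : ℝ) + Real.exp (-1) * ((M ∩ F).card : ℝ)) ^ τ := by
    rw [← sumW]
    calc (P.card : ℝ) * Real.exp (-(d * τ / 4)) = ∑ _v ∈ P, Real.exp (-(d * τ / 4)) := by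
          rw [sum_const, nsmul_eq_mul]
      _ ≤ ∑ v ∈ P, Real.exp (-1) ^ (nn F v) := by
          refine Finset.sum_le_sum fun v hv => ?_
          rw [hpow]
          apply Real.exp_le_exp.2
          have := (Finset.mem_filter.1 hv).2
          linarith
      _ ≤ ∑ v ∈ Fintype.piFinset (fun _ : Fin τ => M), Real.exp (-1) ^ (nn F v) :=
          Finset.sum_le_sum_of_subset_of_nonneg (Finset.filter_subset _ _)
            fun v _ _ => by positivity
  have hexp1 : Real.exp (-1) ≤ 1 / 2 := by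
    rw [Real.exp_neg, one_div]
    apply inv_anti₀ (by norm_num)
    have := Real.add_one_le_exp (1 : ℝ)
    linarith
  have hMO : (M.card : ℝ) ≤ Om.card := by exact_mod_cast Finset.card_le_card hM
  have e2 : ((M \ F).card : ℝ) + Real.exp (-1) * ((M ∩ F).card : ℝ) ≤
      (M.card : ℝ) * Real.exp (-(d / 2)) := by
    rw [card_split]
    have h1 := Real.add_one_le_exp (-(d / 2))
    have h2 : (0 : ℝ) ≤ M.card := by positivity
    have h3 : d * M.card ≤ ((M ∩ F).card : ℝ) := by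
      refine le_trans ?_ h
      exact mul_le_mul_of_nonneg_left hMO hd.le
    have h4 : (0 : ℝ) ≤ ((M ∩ F).card : ℝ) := by positivity
    nlinarith
  have e3 : (((M \ F).card : ℝ) + Real.exp (-1) * ((M ∩ F).card : ℝ)) ^ τ ≤
      ((M.card : ℝ) * Real.exp (-(d / 2))) ^ τ :=
    pow_le_pow_left₀ (by positivity) e2 τ
  have e4 : ((M.card : ℝ) * Real.exp (-(d / 2))) ^ τ =
      (M.card : ℝ) ^ τ * Real.exp (-(d * τ / 4)) * Real.exp (-(d * τ / 4)) := by
    rw [mul_pow, ← Real.exp_nat_mul, mul_assoc, ← Real.exp_add]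
    congr 2
    ring
  rw [e4] at e3
  have h5 := Real.exp_pos (-(d * τ / 4))
  exact le_of_mul_le_mul_right (e1.trans e3) h5

/-- few choices sample a sparse set often -/
theorem c2 {τ : ℕ} (Om M F : Finset O) (d η : ℝ) (hη : 0 < η) (hη1 : η ≤ 1)
    (hM : M ⊆ Om) (h : ((M ∩ F).card : ℝ) < η * Om.card) :
    (((Fintype.piFinset (fun _ : Fin τ => M)).filter
      fun v => ¬ ((nn F v : ℕ) : ℝ) < d * τ / 4).card : ℝ) ≤
      2 ^ τ * η ^ (d * τ / 4) * (Om.card : ℝ) ^ τ := by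
  set P := (Fintype.piFinset (fun _ : Fin τ => M)).filter
      fun v => ¬ ((nn F v : ℕ) : ℝ) < d * τ / 4 with hP
  have hinv : 1 ≤ η⁻¹ := (one_le_inv₀ hη).2 hη1
  have e1 : (P.card : ℝ) * η⁻¹ ^ (d * τ / 4) ≤
      (((M \ F).card : ℝ) + η⁻¹ * ((M ∩ F).card : ℝ)) ^ τ := by
    rw [← sumW]
    calc (P.card : ℝ) * η⁻¹ ^ (d * τ / 4) = ∑ _v ∈ P, η⁻¹ ^ (d * τ / 4) := by
          rw [sum_const, nsmul_eq_mul]
      _ ≤ ∑ v ∈ P, η⁻¹ ^ (nn F v) := by
          refine Finset.sum_le_sum fun v hv => ?_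
          have h1 := (Finset.mem_filter.1 hv).2
          push Not at h1
          rw [← Real.rpow_natCast]
          exact Real.rpow_le_rpow_of_exponent_le hinv h1
      _ ≤ ∑ v ∈ Fintype.piFinset (fun _ : Fin τ => M), η⁻¹ ^ (nn F v) :=
          Finset.sum_le_sum_of_subset_of_nonneg (Finset.filter_subset _ _)
            fun v _ _ => by positivity
  have hMO : (M.card : ℝ) ≤ Om.card := by exact_mod_cast Finset.card_le_card hM
  have e2 : ((M \ F).card : ℝ) + η⁻¹ * ((M ∩ F).card : ℝ) ≤ 2 * Om.card := by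
    have h1 : ((M \ F).card : ℝ) ≤ M.card := by exact_mod_cast Finset.card_le_card sdiff_subset
    have h2 : η⁻¹ * ((M ∩ F).card : ℝ) ≤ Om.card := by
      rw [inv_mul_le_iff₀ hη]
      exact h.le
    linarith
  have e3 : (((M \ F).card : ℝ) + η⁻¹ * ((M ∩ F).card : ℝ)) ^ τ ≤ (2 * (Om.card : ℝ)) ^ τ :=
    pow_le_pow_left₀ (by positivity) e2 τ
  have e4 : η⁻¹ ^ (d * τ / 4) * η ^ (d * τ / 4) = 1 := by
    rw [Real.inv_rpow hη.le]
    exact inv_mul_cancel₀ (Real.rpow_pos_of_pos hη _).ne'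
  calc (P.card : ℝ) = (P.card : ℝ) * η⁻¹ ^ (d * τ / 4) * η ^ (d * τ / 4) := by
        rw [mul_assoc, e4, mul_one]
    _ ≤ (2 * (Om.card : ℝ)) ^ τ * η ^ (d * τ / 4) :=
        mul_le_mul_of_nonneg_right (e1.trans e3) (Real.rpow_pos_of_pos hη _).le
    _ = _ := by
        rw [mul_pow]
        ring

end Pool.Agent.EGF.H77
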