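import Pool.Agent.EGF.StmtsS

set_option autoImplicit false

open Finset

namespace Pool.Agent.EGF.H77

open Pool.Agent.EGF

theorem gen (mix : MixStmt) {X Y : Type} [DecidableEq X] [DecidableEq Y] (A : Finset X)
    (B : Finset Y) (F : Finset (X × Y)) (M ι ρ κ : ℝ) (m n : ℕ) (W : ℕ → Finset X)
    (Z : ℕ → Finset Y) (hA : A.Nonempty) (hB : B.Nonempty) (hι : 0 < ι) (hιM : 2 * ι ≤ M)
    (hM : M ≤ 1) (hρ : 0 < ρ) (hκ : 0 < κ) (h4 : 4 * ρ ≤ ι * κ) (hL : Lrg A B F ρ (M - ι))
    (hm : κ / 2 * A.card ≤ (m : ℝ)) (hn : κ / 2 * B.card ≤ (n : ℝ))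
    (hWA : ∀ i < m, W i ⊆ A) (hW : ∀ i < m, (W i).Nonempty)
    (hWl : ∀ a ∈ A, ∑ i ∈ (range m).filter (fun i => a ∈ W i), (1 : ℝ) / (W i).card ≤ 2)
    (hZB : ∀ i < n, Z i ⊆ B) (hZ : ∀ i < n, (Z i).Nonempty)
    (hZl : ∀ a ∈ B, ∑ i ∈ (range n).filter (fun i => a ∈ Z i), (1 : ℝ) / (Z i).card ≤ 2) :
    (M - 3 * ι) * (m * n) ≤ ∑ p ∈ range m ×ˢ range n,
      (((W p.1 ×ˢ Z p.2) ∩ F).card : ℝ) / ((W p.1).card * (Z p.2).card) := by
  have key := mix X Y A B F M ι ρ κ m n (fun i a => if a ∈ W i then (1 : ℝ) / (W i).card else 0)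
    (fun j b => if b ∈ Z j then (1 : ℝ) / (Z j).card else 0) hA hB hι hιM hM hρ hκ h4 hL hm hn
    ?_ ?_ ?_ ?_
  · refine key.trans (le_of_eq ?_)
    rw [Finset.sum_product]
    refine Finset.sum_congr rfl (fun i hi => Finset.sum_congr rfl (fun j hj => ?_))
    rw [Finset.mem_range] at hi hj
    have e : ∀ p ∈ (A ×ˢ B) ∩ F, (if p.1 ∈ W i then (1 : ℝ) / (W i).card else 0) *
        (if p.2 ∈ Z j then (1 : ℝ) / (Z j).card else 0) =
        if p ∈ W i ×ˢ Z j then 1 / (((W i).card : ℝ) * (Z j).card) else 0 := by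
      intro p _
      by_cases h1 : p.1 ∈ W i
      · by_cases h2 : p.2 ∈ Z j
        · rw [if_pos h1, if_pos h2, if_pos (Finset.mem_product.2 ⟨h1, h2⟩)]
          rw [div_mul_div_comm, one_mul]
        · rw [if_neg h2, mul_zero, if_neg (fun h => h2 (Finset.mem_product.1 h).2)]
      · rw [if_neg h1, zero_mul, if_neg (fun h => h1 (Finset.mem_product.1 h).1)]
    rw [Finset.sum_congr rfl e, ← Finset.sum_filter, Finset.sum_const, nsmul_eq_mul]
    have e2 : ((A ×ˢ B) ∩ F).filter (fun p => p ∈ W i ×ˢ Z j) = (W i ×ˢ Z j) ∩ F := by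
      ext p
      rw [Finset.mem_filter, Finset.mem_inter, Finset.mem_inter]
      constructor
      · rintro ⟨⟨_, h2⟩, h3⟩
        exact ⟨h3, h2⟩
      · rintro ⟨h1, h2⟩
        exact ⟨⟨Finset.product_subset_product (hWA i hi) (hZB j hj) h1, h2⟩, h1⟩
    rw [e2, mul_one_div]
  · intro i hi
    refine ⟨fun a _ => ?_, ?_⟩
    · split_ifs
      · positivity
      · exact le_refl _
    · rw [← Finset.sum_filter, Finset.sum_const, nsmul_eq_mul]
      have : A.filter (fun a => a ∈ W i) = W i := by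
        ext a
        rw [Finset.mem_filter]
        exact ⟨fun h => h.2, fun h => ⟨hWA i hi h, h⟩⟩
      rw [this]
      have hc : ((W i).card : ℝ) ≠ 0 := by
        exact_mod_cast (Finset.card_pos.2 (hW i hi)).ne'
      field_simp
  · intro j hj
    refine ⟨fun a _ => ?_, ?_⟩
    · split_ifs
      · positivity
      · exact le_refl _
    · rw [← Finset.sum_filter, Finset.sum_const, nsmul_eq_mul]
      have : B.filter (fun a => a ∈ Z j) = Z j := by
        ext a
        rw [Finset.mem_filter]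
        exact ⟨fun h => h.2, fun h => ⟨hZB j hj h, h⟩⟩
      rw [this]
      have hc : ((Z j).card : ℝ) ≠ 0 := by
        exact_mod_cast (Finset.card_pos.2 (hZ j hj)).ne'
      field_simp
  · intro a ha
    have := hWl a ha
    rw [Finset.sum_filter] at this
    exact this
  · intro b hb
    have := hZl b hb
    rw [Finset.sum_filter] at this
    exact this

theorem single_load {X : Type} [DecidableEq X] (m : ℕ) (x : ℕ → X)
    (inj : ∀ i < m, ∀ j < m, x i = x j → i = j) (a : X) :
    ∑ i ∈ (range m).filter (fun i => a ∈ ({x i} : Finset X)),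
      (1 : ℝ) / ({x i} : Finset X).card ≤ 2 := by
  have e : ∀ i ∈ (range m).filter (fun i => a ∈ ({x i} : Finset X)),
      (1 : ℝ) / ({x i} : Finset X).card = 1 := by
    intro i _
    rw [Finset.card_singleton]
    norm_num
  rw [Finset.sum_congr rfl e, Finset.sum_const, nsmul_eq_mul, mul_one]
  have hc : ((range m).filter (fun i => a ∈ ({x i} : Finset X))).card ≤ 1 := by
    rw [Finset.card_le_one]
    intro i hi j hj
    rw [Finset.mem_filter, Finset.mem_range, Finset.mem_singleton] at hi hj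
    exact inj i hi.1 j hj.1 (hi.2.symm.trans hj.2)
  have : (((range m).filter (fun i => a ∈ ({x i} : Finset X))).card : ℝ) ≤ 1 := by
    exact_mod_cast hc
  linarith

theorem card_l {X Y : Type} [DecidableEq X] [DecidableEq Y] (F : Finset (X × Y)) (W : Finset X)
    (y : Y) : ((W ×ˢ ({y} : Finset Y)) ∩ F).card = (W.filter fun w => (w, y) ∈ F).card := by
  symm
  refine Finset.card_bij (fun w _ => (w, y)) ?_ ?_ ?_
  · intro w hw
    rw [Finset.mem_filter] at hw
    rw [Finset.mem_inter, Finset.mem_product, Finset.mem_singleton]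
    exact ⟨⟨hw.1, rfl⟩, hw.2⟩
  · intro w _ w' _ h
    exact (Prod.ext_iff.1 h).1
  · rintro ⟨a, b⟩ h
    rw [Finset.mem_inter, Finset.mem_product, Finset.mem_singleton] at h
    obtain ⟨⟨h1, h2⟩, h3⟩ := h
    simp only at h1 h2
    subst h2
    exact ⟨a, Finset.mem_filter.2 ⟨h1, h3⟩, rfl⟩

theorem card_r {X Y : Type} [DecidableEq X] [DecidableEq Y] (F : Finset (X × Y)) (x : X)
    (Z : Finset Y) : ((({x} : Finset X) ×ˢ Z) ∩ F).card = (Z.filter fun z => (x, z) ∈ F).card := by
  symm
  refine Finset.card_bij (fun z _ => (x, z)) ?_ ?_ ?_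
  · intro w hw
    rw [Finset.mem_filter] at hw
    rw [Finset.mem_inter, Finset.mem_product, Finset.mem_singleton]
    exact ⟨⟨rfl, hw.1⟩, hw.2⟩
  · intro w _ w' _ h
    exact (Prod.ext_iff.1 h).2
  · rintro ⟨a, b⟩ h
    rw [Finset.mem_inter, Finset.mem_product, Finset.mem_singleton] at h
    obtain ⟨⟨h1, h2⟩, h3⟩ := h
    simp only at h1 h2
    subst h1
    exact ⟨b, Finset.mem_filter.2 ⟨h2, h3⟩, rfl⟩

theorem card_lr {X Y : Type} [DecidableEq X] [DecidableEq Y] (F : Finset (X × Y)) (x : X)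
    (y : Y) : (((({x} : Finset X) ×ˢ ({y} : Finset Y)) ∩ F).card : ℝ) =
      if (x, y) ∈ F then 1 else 0 := by
  rw [card_l, Finset.filter_singleton]
  split_ifs
  · rw [Finset.card_singleton, Nat.cast_one]
  · rw [Finset.card_empty, Nat.cast_zero]

theorem sym (mix : MixStmt) : SymStmt := by
  intro X Y _ _ A B F M ι ρ κ T m n x y W Z hA hB hι hιM hM hρ hκ h4 hT hL hx hy
  have neW : ∀ i < m, (W i).Nonempty := by
    intro i hi
    rw [← Finset.card_pos]
    have := hx.TW i hi
    have h0 : (0 : ℝ) < ((W i).card : ℝ) := lt_of_lt_of_le hT this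
    exact_mod_cast h0
  have neZ : ∀ i < n, (Z i).Nonempty := by
    intro i hi
    rw [← Finset.card_pos]
    have := hy.TW i hi
    have h0 : (0 : ℝ) < ((Z i).card : ℝ) := lt_of_lt_of_le hT this
    exact_mod_cast h0
  have sx : ∀ i < m, ({x i} : Finset X) ⊆ A :=
    fun i hi => Finset.singleton_subset_iff.2 (hx.xA i hi)
  have sy : ∀ i < n, ({y i} : Finset Y) ⊆ B :=
    fun i hi => Finset.singleton_subset_iff.2 (hy.xA i hi)
  refine ⟨?_, ?_, ?_, ?_⟩
  · have := gen mix A B F M ι ρ κ m n (fun i => {x i}) (fun j => {y j}) hA hB hι hιM hM hρ hκ h4 hL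
      hx.many hy.many sx (fun i _ => Finset.singleton_nonempty _)
      (fun a _ => single_load m x hx.inj a) sy (fun i _ => Finset.singleton_nonempty _)
      (fun a _ => single_load n y hy.inj a)
    refine this.trans (le_of_eq ?_)
    rw [Finset.card_filter, Nat.cast_sum]
    refine Finset.sum_congr rfl (fun p _ => ?_)
    rw [card_lr, Finset.card_singleton, Finset.card_singleton, Nat.cast_one, mul_one, div_one]
    split_ifs
    · rw [Nat.cast_one]
    · rw [Nat.cast_zero]
  · have := gen mix A B F M ι ρ κ m n W (fun j => {y j}) hA hB hι hιM hM hρ hκ h4 hL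
      hx.many hy.many hx.WA neW hx.load sy (fun i _ => Finset.singleton_nonempty _)
      (fun a _ => single_load n y hy.inj a)
    refine this.trans (le_of_eq ?_)
    refine Finset.sum_congr rfl (fun p _ => ?_)
    rw [card_l, Finset.card_singleton, Nat.cast_one, mul_one]
  · have := gen mix A B F M ι ρ κ m n (fun i => {x i}) Z hA hB hι hιM hM hρ hκ h4 hL
      hx.many hy.many sx (fun i _ => Finset.singleton_nonempty _)
      (fun a _ => single_load m x hx.inj a) hy.WA neZ hy.load
    refine this.trans (le_of_eq ?_)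
    refine Finset.sum_congr rfl (fun p _ => ?_)
    rw [card_r, Finset.card_singleton, Nat.cast_one, one_mul]
  · exact gen mix A B F M ι ρ κ m n W Z hA hB hι hιM hM hρ hκ h4 hL
      hx.many hy.many hx.WA neW hx.load hy.WA neZ hy.load

end Pool.Agent.EGF.H77
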